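import Mathlib

/-!
Borsuk-Ulam / Lyusternik-Shnirelman in discrete form: the sphere `S^d` has no colouring with
`d + 1` colours in which almost antipodal points get different colours.
Proof: mod 2 cochains on lists, prisms, and Ky Fan's alternating cochains.
-/

set_option autoImplicit false

namespace Pool.Agent.Lib.BorsukUlam

section Chains

variable {X Y : Type*}

theorem two (a : ZMod 2) : a + a = 0 := by revert a; decide

/-- coboundary of a mod 2 cochain on lists -/
def del : List X → (List X → ZMod 2) → ZMod 2
  | [], _ => 0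
  | x :: l, φ => φ l + del l (fun m => φ (x :: m))

theorem del_add (l : List X) : ∀ φ ψ : List X → ZMod 2,
    del l (fun m => φ m + ψ m) = del l φ + del l ψ := by
  induction l with
  | nil => intro φ ψ; simp [del]
  | cons x l ih => intro φ ψ; simp only [del]; rw [ih]; ring

theorem del_map (f : X → Y) (l : List X) : ∀ φ : List Y → ZMod 2,
    del (l.map f) φ = del l (fun m => φ (m.map f)) := by
  induction l with
  | nil => intro φ; simp [del]
  | cons x l ih => intro φ; simp only [List.map_cons, del]; rw [ih]

theorem del_zero (l : List X) : del l (fun _ => 0) = 0 := by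
  induction l with
  | nil => simp [del]
  | cons x l ih => simp only [del]; rw [ih]; simp

theorem del_filter (p : X → Bool) (l : List X) : ∀ f g : List X → ZMod 2,
    del l (fun m => f (m.filter p) * g (m.filter (fun x => !p x))) =
      del (l.filter p) f * g (l.filter (fun x => !p x)) +
        f (l.filter p) * del (l.filter (fun x => !p x)) g := by
  induction l with
  | nil => intro f g; simp [del]
  | cons x l ih =>
    intro f g
    cases hp : p x
    · have := ih f (fun m => g (x :: m))
      simp only [del, List.filter_cons, hp, Bool.not_false, if_true, Bool.false_eq_true, if_false]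
      rw [this]; ring
    · have := ih (fun m => f (x :: m)) g
      simp only [del, List.filter_cons, hp, Bool.not_true, if_true, Bool.false_eq_true, if_false]
      rw [this]; ring

/-- prism operator -/
def pr (f g : X → Y) : List X → (List Y → ZMod 2) → ZMod 2
  | [], _ => 0
  | x :: l, φ => φ (f x :: g x :: l.map g) + pr f g l (fun m => φ (f x :: m))

theorem pr_add (f g : X → Y) (l : List X) : ∀ φ ψ : List Y → ZMod 2,
    pr f g l (fun m => φ m + ψ m) = pr f g l φ + pr f g l ψ := by
  induction l with
  | nil => intro φ ψ; simp [pr]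
  | cons x l ih => intro φ ψ; simp only [pr]; rw [ih]; ring

theorem pr_del (f g : X → Y) (l : List X) : ∀ φ : List Y → ZMod 2,
    pr f g l (fun m => del m φ) =
      del l (fun m => pr f g m φ) + φ (l.map f) + φ (l.map g) := by
  induction l with
  | nil => intro φ; simp [pr, del, two]
  | cons x l ih =>
    intro φ
    have h1 := ih (fun m => φ (f x :: m))
    simp only [pr, del, List.map_cons]
    rw [pr_add, h1, del_add, del_map]
    have := two (φ (f x :: l.map g))
    linear_combination this

theorem pr_loc (f g : X → Y) (l : List X) : ∀ φ : List Y → ZMod 2,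
    (∀ m : List Y, m.length = l.length + 1 → (∀ y ∈ m, ∃ x ∈ l, y = f x ∨ y = g x) → φ m = 0) →
      pr f g l φ = 0 := by
  induction l with
  | nil => intro φ _; simp [pr]
  | cons x l ih =>
    intro φ h
    simp only [pr]
    rw [h, ih]
    · simp
    · intro m hm hy
      apply h
      · simp [hm]
      · intro y hy'
        rcases List.mem_cons.1 hy' with rfl | hy'
        · exact ⟨x, by simp, Or.inl rfl⟩
        · obtain ⟨z, hz, h'⟩ := hy y hy'
          exact ⟨z, by simp [hz], h'⟩
    · simp
    · intro y hy
      simp only [List.mem_cons, List.mem_map] at hy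
      rcases hy with rfl | rfl | ⟨z, hz, rfl⟩
      · exact ⟨x, by simp, Or.inl rfl⟩
      · exact ⟨x, by simp, Or.inr rfl⟩
      · exact ⟨z, by simp [hz], Or.inr rfl⟩

/-- the invariant carried through the suspension steps -/
structure Cyc (ν : X → X) (good : List X → Prop) (α : List X → ZMod 2)
    (J : (List X → ZMod 2) → ZMod 2) : Prop where
  add : ∀ φ ψ, J (fun m => φ m + ψ m) = J φ + J ψ
  inv : ∀ φ, (∀ m, φ (m.map ν) = φ m) → J φ = 0
  closed : ∀ φ, J (fun m => del m φ) = 0
  loc : ∀ φ, (∀ m, good m → φ m = 0) → J φ = 0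
  val : J α = 1

theorem Cyc.step {ν : X → X} (hν : ∀ x, ν (ν x) = x) {good good' : List X → Prop}
    {α : List X → ZMod 2} {J : (List X → ZMod 2) → ZMod 2} (hJ : Cyc ν good α J)
    (h : ℕ → X → X) (n : ℕ) (h0 : ∀ x, h 0 x = x) (hn : ∀ x, h n (ν x) = h n x)
    (hg : ∀ i < n, ∀ l, good l → ∀ m : List X, m.length = l.length + 1 →
      (∀ y ∈ m, ∃ x ∈ l, y = h i x ∨ y = h (i + 1) x) → good' m)
    (hgν : ∀ m, good' m → good' (m.map ν))
    (hα : ∀ m, good' m → del m α = α m + α (m.map ν)) :
    ∃ J', Cyc ν good' α J' := by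
  let I : (List X → ZMod 2) → ZMod 2 := fun φ =>
    ∑ i ∈ Finset.range n, J (fun l => pr (h i) (h (i + 1)) l φ)
  have Iadd : ∀ φ ψ, I (fun m => φ m + ψ m) = I φ + I ψ := by
    intro φ ψ
    simp only [I, ← Finset.sum_add_distrib]
    refine Finset.sum_congr rfl fun i _ => ?_
    rw [← hJ.add]
    congr 1; funext l; rw [pr_add]
  have Iloc : ∀ φ, (∀ m, good' m → φ m = 0) → I φ = 0 := by
    intro φ hφ
    refine Finset.sum_eq_zero fun i hi => hJ.loc _ fun l hl => pr_loc _ _ _ _ fun m hm hy => ?_
    exact hφ m (hg i (Finset.mem_range.1 hi) l hl m hm hy)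
  have Idel : ∀ φ, I (fun m => del m φ) = J φ := by
    intro φ
    have e1 : ∀ i, J (fun l => pr (h i) (h (i + 1)) l (fun m => del m φ)) =
        J (fun l => φ (l.map (h (i + 1)))) - J (fun l => φ (l.map (h i))) := by
      intro i
      have : (fun l => pr (h i) (h (i + 1)) l (fun m => del m φ)) =
          fun l => (del l (fun m => pr (h i) (h (i + 1)) m φ) + φ (l.map (h i))) +
            φ (l.map (h (i + 1))) := by
        funext l; rw [pr_del]
      rw [this, hJ.add, hJ.add, hJ.closed]
      have := two (J (fun l => φ (l.map (h i))))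
      linear_combination this
    simp only [I, e1]
    rw [Finset.sum_range_sub (fun i => J (fun l => φ (l.map (h i))))]
    have e2 : (fun l : List X => φ (l.map (h 0))) = φ := by
      funext l
      have : h 0 = id := funext h0
      simp [this]
    have e3 : J (fun l => φ (l.map (h n))) = 0 := by
      apply hJ.inv
      intro m
      have : h n ∘ ν = h n := funext hn
      simp [this]
    rw [e2, e3]
    have := two (J φ)
    linear_combination -this
  have mm : ∀ m : List X, (m.map ν).map ν = m := by
    intro m
    have : ν ∘ ν = id := funext hν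
    simp [this]
  refine ⟨fun φ => I (fun m => φ m + φ (m.map ν)), ?_, ?_, ?_, ?_, ?_⟩
  · intro φ ψ
    rw [← Iadd]; congr 1; funext m; ring
  · intro φ hφ
    apply Iloc
    intro m _
    beta_reduce
    rw [hφ, two]
  · intro φ
    have : (fun m : List X => del m φ + del (m.map ν) φ) =
        fun m => del m (fun k => φ k + φ (k.map ν)) := by
      funext m; rw [del_add, del_map]
    simp only []
    rw [this, Idel]
    apply hJ.inv
    intro m
    rw [mm]; ring
  · intro φ hφ
    apply Iloc
    intro m hm
    beta_reduce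
    rw [hφ m hm, hφ _ (hgν m hm)]; simp
  · have e : I (fun m => (α m + α (m.map ν)) + del m α) = 0 := by
      apply Iloc
      intro m hm
      beta_reduce
      rw [hα m hm, two]
    rw [Iadd, Idel, hJ.val] at e
    have := two (1 : ZMod 2)
    linear_combination e - this

/-- indicator of the empty list -/
def cA : List X → ZMod 2
  | [] => 1
  | _ :: _ => 0

/-- indicator of a singleton with sign `σ` -/
def cB (sg : X → Bool) (σ : Bool) : List X → ZMod 2
  | [x] => if sg x = σ then 1 else 0
  | _ => 0

/-- Ky Fan's alternating cochains -/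
def al (lab : X → ℕ) (sg : X → Bool) : ℕ → Bool → List X → ZMod 2
  | 0, _, l => cA l
  | m + 1, σ, l =>
    cA (l.filter (fun x => lab x == m)) * al lab sg m σ (l.filter (fun x => !(lab x == m))) +
      cB sg σ (l.filter (fun x => lab x == m)) *
        al lab sg m (!σ) (l.filter (fun x => !(lab x == m)))

theorem del_cA (sg : X → Bool) (σ : Bool) (l : List X) :
    del l cA = cB sg σ l + cB sg (!σ) l := by
  rcases l with _ | ⟨x, _ | ⟨y, l⟩⟩
  · simp [del, cB]
  · cases σ <;> cases h : sg x <;> simp [del, cA, cB, h]
  · simp [del, cA, cB, del_zero]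

theorem del_cB (sg : X → Bool) (σ : Bool) (l : List X) (h : ∀ x ∈ l, ∀ y ∈ l, sg x = sg y) :
    del l (cB sg σ) = 0 := by
  rcases l with _ | ⟨x, _ | ⟨y, _ | ⟨z, l⟩⟩⟩
  · simp [del]
  · simp [del, cB]
  · have := h x (by simp) y (by simp)
    simp [del, cB, this, two]
  · simp [del, cB, del_zero]

theorem al_del (lab : X → ℕ) (sg : X → Bool) (m : ℕ) : ∀ (σ : Bool) (l : List X),
    (∀ x ∈ l, lab x < m) → (∀ x ∈ l, ∀ y ∈ l, lab x = lab y → sg x = sg y) →
      del l (al lab sg m σ) = al lab sg m σ l + al lab sg m (!σ) l := by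
  induction m with
  | zero =>
    intro σ l h _
    rcases l with _ | ⟨x, l⟩
    · simp [del, al, two]
    · exact absurd (h x (by simp)) (by simp)
  | succ m ih =>
    intro σ l h h'
    have e : al lab sg (m + 1) σ = fun l =>
        cA (l.filter (fun x => lab x == m)) * al lab sg m σ (l.filter (fun x => !(lab x == m))) +
          cB sg σ (l.filter (fun x => lab x == m)) *
            al lab sg m (!σ) (l.filter (fun x => !(lab x == m))) := by
      funext l; rfl
    rw [e, del_add, del_filter (fun x => lab x == m) l cA (al lab sg m σ),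
      del_filter (fun x => lab x == m) l (cB sg σ) (al lab sg m (!σ))]
    have h1 : ∀ x ∈ l.filter (fun x => !(lab x == m)), lab x < m := by
      intro x hx
      simp only [List.mem_filter, Bool.not_eq_eq_eq_not, Bool.not_true, beq_eq_false_iff_ne] at hx
      have := h x hx.1
      omega
    have h2 : ∀ x ∈ l.filter (fun x => !(lab x == m)), ∀ y ∈ l.filter (fun x => !(lab x == m)),
        lab x = lab y → sg x = sg y := fun x hx y hy =>
      h' x (List.mem_filter.1 hx).1 y (List.mem_filter.1 hy).1
    have h3 : ∀ x ∈ l.filter (fun x => lab x == m), ∀ y ∈ l.filter (fun x => lab x == m),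
        sg x = sg y := by
      intro x hx y hy
      simp only [List.mem_filter, beq_iff_eq] at hx hy
      exact h' x hx.1 y hy.1 (hx.2.trans hy.2.symm)
    rw [ih σ _ h1 h2, ih (!σ) _ h1 h2, del_cA sg σ, del_cB sg σ _ h3]
    simp only [al, Bool.not_not]
    have := two (cB sg σ (l.filter (fun x => lab x == m)) *
      al lab sg m σ (l.filter (fun x => !(lab x == m))))
    linear_combination this

theorem al_len (lab : X → ℕ) (sg : X → Bool) (m : ℕ) : ∀ (σ : Bool) (l : List X),
    m < l.length → al lab sg m σ l = 0 := by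
  induction m with
  | zero =>
    intro σ l h
    rcases l with _ | ⟨x, l⟩
    · simp at h
    · simp [al, cA]
  | succ m ih =>
    intro σ l h
    have hl := List.length_eq_length_filter_add (l := l) (fun x => lab x == m)
    simp only [al]
    generalize l.filter (fun x => lab x == m) = t at hl
    rcases t with _ | ⟨x, _ | ⟨y, t⟩⟩
    · rw [ih σ, ih (!σ)]
      · simp
      all_goals simp only [List.length_nil] at hl; omega
    · rw [ih σ, ih (!σ)]
      · simp
      all_goals simp only [List.length_cons, List.length_nil] at hl; omega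
    · simp [cA, cB]

theorem al_nil (lab : X → ℕ) (sg : X → Bool) (m : ℕ) : ∀ σ : Bool, al lab sg m σ [] = 1 := by
  induction m with
  | zero => intro σ; rfl
  | succ m ih => intro σ; simp [al, cA, cB, ih]

theorem al_map (lab : X → ℕ) (sg : X → Bool) (ν : X → X) (m : ℕ) : ∀ (σ : Bool) (l : List X),
    (∀ x ∈ l, lab (ν x) = lab x ∧ sg (ν x) = !sg x) →
      al lab sg m σ (l.map ν) = al lab sg m (!σ) l := by
  induction m with
  | zero => intro σ l _; rcases l with _ | ⟨x, l⟩ <;> simp [al, cA]
  | succ m ih =>
    intro σ l h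
    have e1 : (l.map ν).filter (fun x => lab x == m) = (l.filter (fun x => lab x == m)).map ν := by
      rw [List.filter_map]
      congr 1
      exact List.filter_congr fun x hx => by simp [(h x hx).1]
    have e2 : (l.map ν).filter (fun x => !(lab x == m)) =
        (l.filter (fun x => !(lab x == m))).map ν := by
      rw [List.filter_map]
      congr 1
      exact List.filter_congr fun x hx => by simp [(h x hx).1]
    have h1 : ∀ x ∈ l.filter (fun x => !(lab x == m)), lab (ν x) = lab x ∧ sg (ν x) = !sg x :=
      fun x hx => h x (List.mem_filter.1 hx).1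
    have h2 : ∀ x ∈ l.filter (fun x => lab x == m), sg (ν x) = !sg x :=
      fun x hx => (h x (List.mem_filter.1 hx).1).2
    simp only [al, e1, e2]
    rw [ih σ _ h1, ih (!σ) _ h1]
    generalize l.filter (fun x => lab x == m) = t at h2
    rcases t with _ | ⟨x, _ | ⟨y, t⟩⟩
    · simp [cA, cB]
    · have := h2 x (by simp)
      cases σ <;> cases h : sg x <;> simp [cA, cB, this, h]
    · simp [cA, cB]

end Chains

section Sphere

open Real

/-- lists of `k + 1` close unit vectors in the span of the first `k + 1` basis vectors -/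
def Good (d : ℕ) (ε : ℝ) (k : ℕ) (l : List (EuclideanSpace ℝ (Fin (d + 1)))) : Prop :=
  l.length = k + 1 ∧ (∀ x ∈ l, ‖x‖ = 1 ∧ ∀ j : Fin (d + 1), k < j.val → x j = 0) ∧
    ∀ x ∈ l, ∀ y ∈ l, ‖x - y‖ ≤ k * ε

theorem Good.neg {d : ℕ} {ε : ℝ} {k : ℕ} {l : List (EuclideanSpace ℝ (Fin (d + 1)))}
    (h : Good d ε k l) : Good d ε k (l.map (fun x => -x)) := by
  refine ⟨by simp [h.1], ?_, ?_⟩
  · intro x hx
    obtain ⟨y, hy, rfl⟩ := List.mem_map.1 hx
    refine ⟨by simp [(h.2.1 y hy).1], fun j hj => by simp [(h.2.1 y hy).2 j hj]⟩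
  · intro x hx y hy
    obtain ⟨x', hx', rfl⟩ := List.mem_map.1 hx
    obtain ⟨y', hy', rfl⟩ := List.mem_map.1 hy
    rw [neg_sub_neg, norm_sub_rev]
    exact h.2.2 x' hx' y' hy'

theorem rot_dist {E : Type*} [NormedAddCommGroup E] [NormedSpace ℝ E] (x y e : E)
    (hy : ‖y‖ = 1) (he : ‖e‖ = 1) (a b : ℝ) :
    ‖(cos a • x + sin a • e) - (cos b • y + sin b • e)‖ ≤ ‖x - y‖ + 2 * |a - b| := by
  have e1 : (cos a • x + sin a • e) - (cos b • y + sin b • e) =
      cos a • (x - y) + ((cos a - cos b) • y + (sin a - sin b) • e) := by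
    simp only [smul_sub, sub_smul]; abel
  rw [e1]
  refine (norm_add_le _ _).trans (add_le_add ?_ ((norm_add_le _ _).trans ?_))
  · rw [norm_smul]
    exact mul_le_of_le_one_left (norm_nonneg _) (abs_cos_le_one a)
  · rw [norm_smul, norm_smul, hy, he, norm_eq_abs, norm_eq_abs]
    have := abs_cos_sub_cos_le a b
    have := abs_sin_sub_sin_le a b
    linarith

theorem exists_cyc (d n : ℕ) (hn : 0 < n) (α : List (EuclideanSpace ℝ (Fin (d + 1))) → ZMod 2)
    (h0 : α [] = 1)
    (hα : ∀ k ≤ d, ∀ m, Good d (π / n) k m → del m α = α m + α (m.map (fun x => -x))) :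
    ∀ k ≤ d, ∃ J, Cyc (fun x => -x) (Good d (π / n) k) α J := by
  intro k
  induction k with
  | zero =>
    intro _
    let e : EuclideanSpace ℝ (Fin (d + 1)) := EuclideanSpace.single 0 1
    have he : Good d (π / n) 0 [e] := by
      refine ⟨rfl, ?_, ?_⟩
      · intro x hx
        rw [List.mem_singleton.1 hx]
        refine ⟨by simp [e], fun j hj => ?_⟩
        have : j ≠ 0 := by rintro rfl; simp at hj
        simp [e, this]
      · intro x hx y hy
        rw [List.mem_singleton.1 hx, List.mem_singleton.1 hy]; simp
    refine ⟨fun φ => φ [e] + φ [-e], ?_, ?_, ?_, ?_, ?_⟩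
    · intro φ ψ; ring
    · intro φ hφ
      have := hφ [e]
      simp only [List.map_cons, List.map_nil] at this
      rw [this, two]
    · intro φ; simp [del, two]
    · intro φ hφ
      have := hφ _ he.neg
      simp only [List.map_cons, List.map_nil] at this
      rw [this, hφ _ he]; simp
    · have := hα 0 (Nat.zero_le _) _ he
      simp only [List.map_cons, List.map_nil, del, h0] at this
      rw [← this]; simp
  | succ k ih =>
    intro hk
    obtain ⟨J, hJ⟩ := ih (by omega)
    let e : EuclideanSpace ℝ (Fin (d + 1)) := EuclideanSpace.single ⟨k + 1, by omega⟩ 1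
    have he : ‖e‖ = 1 := by simp [e]
    have hn' : (0 : ℝ) < n := by exact_mod_cast hn
    let τ : ℝ := π / (2 * n)
    have hτ : 0 < τ := by positivity
    refine hJ.step (fun x => neg_neg x)
      (fun i x => cos (i * τ) • x + sin (i * τ) • e) n ?_ ?_ ?_ (fun m hm => hm.neg)
      (hα (k + 1) hk)
    · intro x; simp
    · intro x
      have : (n : ℝ) * τ = π / 2 := by simp only [τ]; field_simp
      simp [this]
    · intro i _ l hl m hm hy
      have key : ∀ y ∈ m, ∃ x ∈ l, ∃ a : ℝ, i * τ ≤ a ∧ a ≤ i * τ + τ ∧
          y = cos a • x + sin a • e := by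
        intro y hy'
        obtain ⟨x, hx, h | h⟩ := hy y hy'
        · exact ⟨x, hx, _, le_rfl, by linarith, h⟩
        · refine ⟨x, hx, _, ?_, ?_, h⟩ <;> push_cast <;> linarith
      refine ⟨by rw [hm, hl.1], ?_, ?_⟩
      · intro y hy'
        obtain ⟨x, hx, a, -, -, rfl⟩ := key y hy'
        obtain ⟨hx1, hx2⟩ := hl.2.1 x hx
        constructor
        · have hxe : inner ℝ x e = 0 := by
            simp only [e, EuclideanSpace.inner_single_right]
            simp [hx2 ⟨k + 1, by omega⟩ (by simp)]
          have : ‖cos a • x + sin a • e‖ ^ 2 = 1 := by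
            rw [norm_add_sq_real, inner_smul_left, inner_smul_right, hxe, norm_smul, norm_smul,
              hx1, he]
            simp
          have h2 := norm_nonneg (cos a • x + sin a • e)
          nlinarith
        · intro j hj
          have h1 : j ≠ ⟨k + 1, Nat.succ_lt_succ hk⟩ := by
            intro h; rw [h] at hj; simp at hj
          simp [e, h1, hx2 j (by omega)]
      · intro y hy1 z hz1
        obtain ⟨x, hx, a, ha1, ha2, rfl⟩ := key y hy1
        obtain ⟨w, hw, b, hb1, hb2, rfl⟩ := key z hz1
        refine (rot_dist x w e (hl.2.1 w hw).1 he a b).trans ?_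
        have h1 := hl.2.2 x hx w hw
        have h2 : |a - b| ≤ τ := abs_le.2 ⟨by linarith, by linarith⟩
        have h3 : 2 * τ = π / n := by simp only [τ]; field_simp
        push_cast
        linarith

/-- Discrete Lyusternik-Shnirelman / Borsuk-Ulam: every colouring of the unit sphere of
`ℝ^(d+1)` with `d + 1` colours has almost antipodal points of the same colour. -/
theorem exists_antipodal (d : ℕ) (β : ℝ) (hβ : 0 < β)
    (g : EuclideanSpace ℝ (Fin (d + 1)) → Fin (d + 1)) :
    ∃ x y : EuclideanSpace ℝ (Fin (d + 1)), ‖x‖ = 1 ∧ ‖y‖ = 1 ∧ ‖x + y‖ < β ∧ g x = g y := by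
  by_contra hc
  push Not at hc
  obtain ⟨n, hn⟩ := exists_nat_gt (d * π / β)
  have hn0 : (0 : ℝ) < n := lt_of_le_of_lt (by positivity) hn
  have hn1 : 0 < n := by exact_mod_cast hn0
  have hlt : d * (π / n) < β := by
    rw [div_lt_iff₀ hβ] at hn
    rw [← mul_div_assoc, div_lt_iff₀ hn0]; linarith
  let lab : EuclideanSpace ℝ (Fin (d + 1)) → ℕ := fun x => min (g x).val (g (-x)).val
  let sg : EuclideanSpace ℝ (Fin (d + 1)) → Bool := fun x => decide ((g x).val < (g (-x)).val)
  have hne : ∀ x, ‖x‖ = 1 → (g x).val ≠ (g (-x)).val := fun x hx h =>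
    hc x (-x) hx (by simp [hx]) (by simpa using hβ) (Fin.ext h)
  have hmap : ∀ k m, Good d (π / n) k m → ∀ σ,
      al lab sg d σ (m.map (fun x => -x)) = al lab sg d (!σ) m := by
    intro k m hm σ
    apply al_map
    intro x hx
    have := hne x (hm.2.1 x hx).1
    constructor
    · simp [lab, min_comm]
    · simp only [sg, neg_neg]
      by_cases h : (g x).val < (g (-x)).val
      · have : ¬ (g (-x)).val < (g x).val := by omega
        simp only [h, this]; rfl
      · have : (g (-x)).val < (g x).val := by omega
        simp only [h, this]; rfl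
  obtain ⟨J, hJ⟩ := exists_cyc d n hn1 (al lab sg d true) (al_nil _ _ _ _) (by
    intro k hk m hm
    rw [hmap k m hm]
    apply al_del
    · intro x hx
      have := hne x (hm.2.1 x hx).1
      have h1 := (g x).2
      have h2 := (g (-x)).2
      simp only [lab]; omega
    · intro x hx y hy hxy
      have hx1 := (hm.2.1 x hx).1
      have hy1 := (hm.2.1 y hy).1
      have hd : ‖x - y‖ < β := by
        refine lt_of_le_of_lt ((hm.2.2 x hx y hy).trans ?_) hlt
        have : (k : ℝ) ≤ d := by exact_mod_cast hk
        have : 0 ≤ π / n := by positivity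
        nlinarith
      have h1 : (g x).val ≠ (g (-y)).val := fun h =>
        hc x (-y) hx1 (by simp [hy1]) (by rwa [← sub_eq_add_neg]) (Fin.ext h)
      have h2 : (g (-x)).val ≠ (g y).val := fun h =>
        hc (-x) y (by simp [hx1]) hy1 (by rwa [neg_add_eq_sub, norm_sub_rev]) (Fin.ext h)
      have h3 := hne x hx1
      have h4 := hne y hy1
      simp only [lab] at hxy
      simp only [sg, decide_eq_decide]
      omega) d le_rfl
  have := hJ.loc (al lab sg d true) fun m hm => al_len _ _ _ _ _ (by rw [hm.1]; omega)
  rw [hJ.val] at this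
  exact absurd this (by decide)

end Sphere

end Pool.Agent.Lib.BorsukUlam
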